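import Pool.Agent.W602.RG.Stm
import Pool.Agent.W603.LV.Wr

/-!
# Project RG (helper602), part WSC (helper347)
-/

set_option autoImplicit false

namespace Pool.Agent.W347.RG

theorem wr_eq {L E : Type} [Field L] [Field E] [Algebra L E] (D : Derivation L E E)
    {r : ℕ} (g : Fin r → E) :
    Pool.Agent.W602.RG.Wr D g = Pool.Agent.W603.LV.wr D g := by
  unfold Pool.Agent.W602.RG.Wr Pool.Agent.W603.LV.wr
  rw [← Matrix.det_transpose]
  rfl

theorem main : Pool.Agent.W602.RG.S_WSC := by
  intro L E _ _ _ D r h g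
  rw [wr_eq, wr_eq]
  have h1 := Pool.Agent.W603.LV.wr_change D 1 h g
  rw [one_smul] at h1
  rw [h1]
  congr 1
  simp

end Pool.Agent.W347.RG
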